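import Mathlib

/-!
# Five truncated hypergeometric-type sums modulo `p^2`: failure at `p = 7`

For `p = 7 = (-2)^2 + 3 * 1^2` the sum `S_2 = ∑_{k<p} C(-1/2,k) C(-1/3,k) / (-27)^k` is not
congruent to `2A - p/(2A)` modulo `p^2`, nor is it congruent to `S_1` modulo `p^2`.
-/

open Finset

namespace Pool.Agent.Results.MP_fc29f1_nt.SecondSumAtSeven

/-- The generalized binomial coefficient `a (a-1) ⋯ (a-k+1) / k!`. -/
def binom (a : ℚ) (k : ℕ) : ℚ := (∏ i ∈ range k, (a - i)) / (k.factorial : ℚ)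

/-- The sum `∑_{k<p} C(a,k) C(b,k) z^k`. -/
def S (p : ℕ) (a b z : ℚ) : ℚ := ∑ k ∈ range p, binom a k * binom b k * z ^ k

/-- `S_1 = ∑ C(-1/2,k) C(-1/3,k) (-3)^k`. -/
def S1 (p : ℕ) : ℚ := S p (-1 / 2) (-1 / 3) (-3)
/-- `S_2 = ∑ C(-1/2,k) C(-1/3,k) / (-27)^k`. -/
def S2 (p : ℕ) : ℚ := S p (-1 / 2) (-1 / 3) (-1 / 27)
/-- `S_3 = ∑ C(-1/2,k) C(-2/3,k) / (-4)^k`. -/
def S3 (p : ℕ) : ℚ := S p (-1 / 2) (-2 / 3) (-1 / 4)
/-- `S_4 = ∑ C(-1/2,k) C(-1/3,k) / 5^k`. -/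
def S4 (p : ℕ) : ℚ := S p (-1 / 2) (-1 / 3) (1 / 5)
/-- `S_5 = ∑ C(-1/2,k) C(-1/3,k) 2^k`. -/
def S5 (p : ℕ) : ℚ := S p (-1 / 2) (-1 / 3) 2

/-- Congruence of rational numbers modulo `p^m`: the difference is `p^m` times a rational number
whose denominator is prime to `p`. -/
def Congr (p m : ℕ) (a b : ℚ) : Prop := ∃ c : ℚ, ¬ p ∣ c.den ∧ a - b = (p : ℚ) ^ m * c

theorem not_congr (p m : ℕ) (hp : p.Prime) (a b : ℚ) (D N : ℤ) (h : (D : ℚ) * (a - b) = N)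
    (hN : ¬ (p : ℤ) ^ m ∣ N) : ¬ Congr p m a b := by
  rintro ⟨c, hc, hab⟩
  apply hN
  rw [hab] at h
  have hc0 : (c.den : ℚ) ≠ 0 := by exact_mod_cast c.den_nz
  have h1 : (N : ℚ) * c.den = (D : ℚ) * (p : ℚ) ^ m * c.num := by
    rw [← h]
    have h2 : c * c.den = c.num := Rat.mul_den_eq_num c
    calc (D : ℚ) * ((p : ℚ) ^ m * c) * c.den = (D : ℚ) * (p : ℚ) ^ m * (c * c.den) := by ring
      _ = _ := by rw [h2]
  have h3 : N * (c.den : ℤ) = D * (p : ℤ) ^ m * c.num := by exact_mod_cast h1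
  have h4 : (p : ℤ) ^ m ∣ N * (c.den : ℤ) := by
    rw [h3]; exact ⟨D * c.num, by ring⟩
  have h5 : IsCoprime ((p : ℤ) ^ m) (c.den : ℤ) := by
    apply IsCoprime.pow_left
    rw [Nat.isCoprime_iff_coprime]
    exact (hp.coprime_iff_not_dvd).2 hc
  exact h5.dvd_of_dvd_mul_right h4

/-- Part (a) for the prime `p` and the integer `A`. -/
def PartA (p : ℕ) (A : ℤ) : Prop :=
  Congr p 2 (S1 p) (2 * (A : ℚ) - (p : ℚ) / (2 * A)) ∧
  Congr p 2 (S2 p) (2 * (A : ℚ) - (p : ℚ) / (2 * A)) ∧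
  Congr p 2 (S3 p) (2 * (A : ℚ) - (p : ℚ) / (2 * A)) ∧
  Congr p 2 ((jacobiSym p 5 : ℚ) * S4 p) (2 * (A : ℚ) - (p : ℚ) / (2 * A)) ∧
  Congr p 2 ((-1) ^ ((p - 1) / 2) * S5 p) (2 * (A : ℚ) - (p : ℚ) / (2 * A))

/-- Part (b) for the prime `p`. -/
def PartB (p : ℕ) : Prop :=
  Congr p 1 (S1 p) 0 ∧ Congr p 1 (S2 p) 0 ∧ Congr p 1 (S3 p) 0 ∧ Congr p 1 (S4 p) 0 ∧
    Congr p 1 (S5 p) 0

theorem S2_seven : S2 7 = 215591174128891 / 216905884017408 := by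
  unfold S2 S binom
  simp only [Finset.sum_range_succ, Finset.sum_range_zero, Finset.prod_range_succ,
    Finset.prod_range_zero]
  norm_num [Nat.factorial]

theorem S1_sub_S2_seven : S1 7 - S2 7 = 173123216000735 / 13556617751088 := by
  unfold S1 S2 S binom
  simp only [Finset.sum_range_succ, Finset.sum_range_zero, Finset.prod_range_succ,
    Finset.prod_range_zero]
  norm_num [Nat.factorial]

theorem fail_seven : ¬ Congr 7 2 (S2 7) (2 * ((-2 : ℤ) : ℚ) - ((7 : ℕ) : ℚ) / (2 * (-2 : ℤ))) := by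
  refine not_congr 7 2 (by norm_num) _ _ 216905884017408 703629413168059 ?_ (by norm_num)
  rw [S2_seven]
  norm_num

theorem fail_seven' : ¬ Congr 7 2 (S1 7) (S2 7) := by
  refine not_congr 7 2 (by norm_num) _ _ 13556617751088 173123216000735 ?_ (by norm_num)
  rw [S1_sub_S2_seven]
  norm_num

/-- At `p = 7` (where `A = -2`) the sum `S_2` is congruent modulo `49` neither to
`2A - p/(2A)` nor to `S_1`; so Question 1 has a negative answer. -/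
theorem result :
    (¬ Congr 7 2 (S2 7) (2 * ((-2 : ℤ) : ℚ) - ((7 : ℕ) : ℚ) / (2 * (-2 : ℤ))) ∧
      ¬ Congr 7 2 (S1 7) (S2 7)) ∧
    ¬ ∀ p : ℕ, p.Prime → 5 < p →
      (p % 3 = 1 → ∀ A B : ℤ, (p : ℤ) = A ^ 2 + 3 * B ^ 2 → 3 ∣ A - 1 → PartA p A) ∧
      (p % 3 = 2 → PartB p) := by
  refine ⟨⟨fail_seven, fail_seven'⟩, ?_⟩
  intro h
  exact fail_seven ((h 7 (by norm_num) (by norm_num)).1 (by norm_num) (-2) 1 (by norm_num)
    (by norm_num)).2.1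

end Pool.Agent.Results.MP_fc29f1_nt.SecondSumAtSeven
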